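import Pool.Agent.X58.CN.Main

/-!
# Patterns in the parameters of squarefree congruent numbers, for several classes modulo `8` at once

The numbers `num b v = 3 b v (12 b v - 1) (12 b v + 1)` are congruent numbers (the legs `12 b v` and
`((12 b v) ^ 2 - 1) / 2`). Let `b` be squarefree, prime to `3`, and `t` a class modulo `8` (see `Admissible`).
(1) For `θ > 1/2` and large `r` there are at least `δ X / (log X) ^ 3` parameters `v` in `(A, A + X]`,
`A ^ θ ≤ X ≤ A`, such that `num b v` is squarefree, `≡ t` modulo `8`, with at most `r` prime factors, those not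
dividing `3 b` larger than `v ^ (1 / r)`.
(2) These numbers are congruent.
(3) All but at most `ε X / (log X) ^ 3` elements of an arbitrary set `S` of such parameters in an interval `(A, A + X]`,
`A ≥ X`, are centres of patterns in `S` of the expected number, with differences up to `D`, for every
`D ≥ (log X) ^ B`.
(4) `M` such sets, for `M` types `(b_j, t_j)`, in `M` arbitrary intervals of length `X`, with at least
`δ X / (log X) ^ 3` elements each have common difference vectors: for a positive proportion of the vectors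
`d ∈ {1, ..., D} ^ m` the `j`-th set contains for every `P ⊆ {0, ..., k - 1} ^ m` with `0 ∈ P` the number of patterns
`n + f · d`, `f ∈ P`, predicted for `b_j`, for all `j` at once.

The proof uses the theorems of `Pool.Agent.X26` and `Pool.Agent.X69` (in this run) on patterns in dense sets of
integers without small prime factors and the sieve of the starting library (`Pool.Agent.TH977.PW`).
-/

set_option autoImplicit false

namespace Pool.Agent.Results.MP_8efaaa_nt.CommonPatterns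

open Filter

/-- The system `x² + a y² = z²`, `x² - a y² = t²` is solvable in positive integers. -/
def Congruent (a : ℕ) : Prop :=
  ∃ x y z t : ℕ, 0 < x ∧ 0 < y ∧ 0 < z ∧ 0 < t ∧ x ^ 2 + a * y ^ 2 = z ^ 2 ∧ x ^ 2 = a * y ^ 2 + t ^ 2

/-- `b` is squarefree and prime to `3`, and `t` is `5` or `7` and `b` odd, or `t` is `6` and `b` even. -/
def Admissible (b t : ℕ) : Prop :=
  Squarefree b ∧ ¬ 3 ∣ b ∧ ((t = 5 ∨ t = 7) ∧ Odd b ∨ t = 6 ∧ Even b)

/-- The number `3 b v (12 b v - 1) (12 b v + 1)`. -/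
def num (b v : ℕ) : ℕ := 3 * b * v * (12 * b * v - 1) * (12 * b * v + 1)

/-- `q` divides `v`, `12 b v - 1` or `12 b v + 1`. -/
def Divides (b q v : ℕ) : Prop := q ∣ v ∨ q ∣ 12 * b * v - 1 ∨ q ∣ 12 * b * v + 1

/-- The parameters `v` such that `num b v` is squarefree, is `t` modulo `8`, has at most `r` prime factors, and has no
prime factors up to `v ^ (1 / r)` except for those of `3 b`. -/
def Good (b t r : ℕ) : Set ℕ :=
  {v | num b v % 8 = t ∧ Squarefree (num b v) ∧ ArithmeticFunction.cardFactors (num b v) ≤ r ∧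
    ∀ q : ℕ, q.Prime → Divides b q v → (v : ℝ) ^ (1 / (r : ℝ)) < q}

/-- The integer `f · d = f 0 * d 0 + f 1 * d 1 + ...`. -/
def dot {m : ℕ} (f d : Fin m → ℕ) : ℕ := ∑ i, f i * d i

/-- `n` is a centre in `S` for `d`: all the integers `n + f · d` with `|f i| ≤ K` for all `i` are in `S`. -/
def Centre (K : ℕ) (S : Set ℕ) {m : ℕ} (n : ℕ) (d : Fin m → ℕ) : Prop :=
  ∀ f : Fin m → ℤ, (∀ i, |f i| ≤ K) → ∃ s ∈ S, (s : ℤ) = n + ∑ i, f i * (d i : ℤ)

/-- The number of the vectors `d ∈ {1, ..., D} ^ m` for which `n` is a centre in `S`. -/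
noncomputable def patterns (K m D : ℕ) (S : Set ℕ) (n : ℕ) : ℕ :=
  {d : Fin m → ℕ | (∀ i, 1 ≤ d i ∧ d i ≤ D) ∧ Centre K S n d}.ncard

/-- The number of the residues `u` modulo `q` such that `q` divides `v`, `12 b v - 1` or `12 b v + 1` for
`v = u + f · d` with some `f ∈ P`. -/
noncomputable def omega (b : ℕ) {m : ℕ} (d : Fin m → ℕ) (P : Finset (Fin m → ℕ)) (q : ℕ) : ℕ :=
  {u : ℕ | 1 ≤ u ∧ u ≤ q ∧ ∃ f ∈ P, Divides b q (u + dot f d)}.ncard

/-- The product of the `1 - w q / q` over the primes `q ≤ X`. -/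
noncomputable def product (w : ℕ → ℕ) (X : ℕ) : ℝ :=
  ∏ q ∈ (Finset.Icc 1 X).filter Nat.Prime, (1 - (w q : ℝ) / q)

/-- The number of the `n ∈ S` such that all the `n + f · d`, `f ∈ P`, are in `S`. -/
noncomputable def count (S : Set ℕ) {m : ℕ} (d : Fin m → ℕ) (P : Finset (Fin m → ℕ)) : ℕ :=
  {n : ℕ | n ∈ S ∧ ∀ f ∈ P, n + dot f d ∈ S}.ncard

/-- For all `P ⊆ {0, ..., k - 1} ^ m` with `0 ∈ P`: the integers `f · d`, `f ∈ P`, are different, and for all `j`
the conditions modulo the primes are solvable and the set `S j` contains at least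
`c X ∏ (1 - omega (b j) d P q / q)` of the patterns `n + f · d`, `f ∈ P`. -/
def Common {M m : ℕ} (b : Fin M → ℕ) (c : ℝ) (k X : ℕ) (S : Fin M → Set ℕ) (d : Fin m → ℕ) : Prop :=
  ∀ P : Finset (Fin m → ℕ), (∀ f ∈ P, ∀ i, f i < k) → (fun _ => 0) ∈ P →
    Set.InjOn (fun f => dot f d) (P : Set (Fin m → ℕ)) ∧ ∀ j, (∀ q : ℕ, q.Prime → omega (b j) d P q < q) ∧
      c * (X * product (omega (b j) d P) X) ≤ (count (S j) d P : ℝ)

lemma congruent (b v : ℕ) (hb : 1 ≤ b) (hv : 1 ≤ v) : Congruent (num b v) := by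
  have h0 : 12 ≤ 12 * b * v := by
    calc 12 = 12 * 1 * 1 := by norm_num
      _ ≤ 12 * b * v := Nat.mul_le_mul (Nat.mul_le_mul_left _ hb) hv
  have h4 : 4 * num b v = 12 * b * v * (12 * b * v - 1) * (12 * b * v + 1) := by
    unfold num
    ring
  obtain ⟨w, hw⟩ : ∃ w, 12 * b * v = w + 12 := ⟨12 * b * v - 12, by omega⟩
  rw [hw, show w + 12 - 1 = w + 11 by omega] at h4
  refine ⟨(w + 12) ^ 2 + 1, 4, (w + 12) ^ 2 + 2 * w + 23, (w + 11) ^ 2 - 2, by positivity, by norm_num, by positivity,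
    ?_, ?_, ?_⟩
  · have : 11 ^ 2 ≤ (w + 11) ^ 2 := Nat.pow_le_pow_left (by omega) 2
    omega
  · calc ((w + 12) ^ 2 + 1) ^ 2 + num b v * 4 ^ 2 = ((w + 12) ^ 2 + 1) ^ 2 + 4 * (4 * num b v) := by ring
      _ = ((w + 12) ^ 2 + 2 * w + 23) ^ 2 := by rw [h4]; ring
  · obtain ⟨s, hs⟩ : ∃ s, (w + 11) ^ 2 = s + 2 := ⟨(w + 11) ^ 2 - 2, by
      have : 11 ^ 2 ≤ (w + 11) ^ 2 := Nat.pow_le_pow_left (by omega) 2
      omega⟩
    rw [hs, Nat.add_sub_cancel]
    have hs' : (s : ℤ) = (w + 11) ^ 2 - 2 := by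
      have : (((w + 11) ^ 2 : ℕ) : ℤ) = ((s + 2 : ℕ) : ℤ) := by rw [hs]
      push_cast at this
      linarith
    have h4' : 4 * ((num b v : ℕ) : ℤ) = (w + 12) * (w + 11) * (w + 12 + 1) := by
      have : ((4 * num b v : ℕ) : ℤ) = (((w + 12) * (w + 11) * (w + 12 + 1) : ℕ) : ℤ) := by rw [h4]
      push_cast at this
      exact this
    have : (((((w + 12) ^ 2 + 1) ^ 2 : ℕ)) : ℤ) = ((num b v * 4 ^ 2 + s ^ 2 : ℕ) : ℤ) := by
      push_cast
      rw [hs']
      linear_combination (-4 : ℤ) * h4'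
    exact_mod_cast this


/-- **Patterns in the parameters of squarefree congruent numbers.** -/
theorem result :
    (∀ b t : ℕ, Admissible b t → ∀ θ : ℝ, 1 / 2 < θ → θ ≤ 1 → ∃ r₀ : ℕ, 2 ≤ r₀ ∧ ∀ r : ℕ, r₀ ≤ r →
      ∃ δ : ℝ, 0 < δ ∧ ∀ᶠ X : ℕ in atTop, ∀ A : ℕ, X ≤ A → (A : ℝ) ^ θ ≤ X →
      δ * X / Real.log X ^ 3 ≤ ((Good b t r ∩ Set.Ioc A (A + X)).ncard : ℝ)) ∧
    (∀ b t r v : ℕ, Admissible b t → v ∈ Good b t r → 1 ≤ v ∧ Congruent (num b v) ∧
      (num b v % 8 = 5 ∨ num b v % 8 = 6 ∨ num b v % 8 = 7)) ∧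
    (∀ b t : ℕ, Admissible b t → ∀ (r m K : ℕ) (ε : ℝ), 1 ≤ r → 1 ≤ K → 0 < ε →
      ∃ c : ℝ, 0 < c ∧ ∃ B : ℕ, ∀ᶠ X : ℕ in atTop, ∀ A D : ℕ, X ≤ A → Real.log X ^ B ≤ D → D ≤ X →
        ∀ S : Set ℕ, S ⊆ Good b t r ∩ Set.Ioc A (A + X) →
        ({n : ℕ | n ∈ S ∧ (patterns K m D S n : ℝ) <
          c * ((D : ℝ) ^ m / Real.log X ^ (3 * ((2 * K + 1) ^ m - 1)))}.ncard : ℝ) ≤ ε * X / Real.log X ^ 3) ∧
    (∀ (M : ℕ) (b t : Fin M → ℕ), (∀ j, Admissible (b j) (t j)) → ∀ (r m k : ℕ) (δ : ℝ), 1 ≤ r → 0 < δ →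
      ∃ c : ℝ, 0 < c ∧ ∃ B : ℕ, ∀ᶠ X : ℕ in atTop, ∀ D : ℕ, Real.log X ^ B ≤ D → D ≤ X →
        ∀ (A : Fin M → ℕ) (S : Fin M → Set ℕ), (∀ j, X ≤ A j) →
        (∀ j, S j ⊆ Good (b j) (t j) r ∩ Set.Ioc (A j) (A j + X)) →
        (∀ j, δ * X / Real.log X ^ 3 ≤ ((S j).ncard : ℝ)) →
        c * (D : ℝ) ^ m ≤ ({d : Fin m → ℕ | (∀ i, 1 ≤ d i ∧ d i ≤ D) ∧ Common b c k X S d}.ncard : ℝ)) := by
  have hpos : ∀ b t : ℕ, Admissible b t → 1 ≤ b := fun b t h => Nat.one_le_iff_ne_zero.2 h.1.ne_zero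
  refine ⟨fun b t h θ hθ hθ1 => ?_, fun b t r v h hv => ?_, fun b t h r m K ε hr hK hε => ?_,
    fun M b t h r m k δ hr hδ => ?_⟩
  · refine Pool.Agent.X58.CN.lowA b t ?_ θ hθ hθ1
    refine ⟨h.1, h.2.1, ?_, ?_, ?_⟩
    · rcases h.2.2 with h | h <;> omega
    · rcases h.2.2 with h | h <;> omega
    · rcases h.2.2 with ⟨h, h2⟩ | ⟨h, h2⟩
      · rw [Nat.odd_iff] at h2
        omega
      · rw [Nat.even_iff] at h2
        omega
  · have hb := hpos b t h
    have hv1 : 1 ≤ v := by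
      rcases Nat.eq_zero_or_pos v with h0 | h0
      · exfalso
        have h1 := hv.2.1.ne_zero
        apply h1
        rw [h0]
        unfold num
        simp
      · exact h0
    have ht : num b v % 8 = t := hv.1
    refine ⟨hv1, congruent b v hb hv1, ?_⟩
    rcases h.2.2 with h | h <;> omega
  · exact Pool.Agent.X58.CN.typ b t r (hpos b t h) hr m K hK ε hε
  · exact Pool.Agent.X58.CN.common M b t (fun j => hpos _ _ (h j)) r hr m k δ hδ

end Pool.Agent.Results.MP_8efaaa_nt.CommonPatterns
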