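import Pool.Agent.X220.CN.Fin

/-!
# Squarefree congruent numbers of the classes 5, 6, 7 modulo 8 with few prime factors and prescribed fractional parts

Let `Q_1, …, Q_s` be real polynomials of degree at most `d ≥ 1` whose vector of the coefficients of `x ^ d` is of finite
type: the distance of `h_1 α_1 + … + h_s α_s` to the nearest integer is at least `c₀ / |h| ^ τ` for all nonzero integral
vectors `h` (for example `α_1, …, α_s` are algebraic and `1, α_1, …, α_s` are linearly independent over the rational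
numbers; for `s = d = 1` this is the condition that the numbers `α n` are considered, `α` of finite type).

For `j = 5, 6, 7` let `K = 663552, 331776, 663552`. If `M + H ≤ H ^ (2 - η)` and `H` is large, there are many squarefree
congruent numbers `n ≡ j` modulo `8` in the short interval `(K M ^ 3, K (M + H + 1) ^ 3]` with at most `r` prime factors, the
odd ones greater than `H ^ δ`, for which all the fractional parts of `Q_i(n) - u_i` are less than `ρ_i`, where the `ρ_i` may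
be as small as `H ^ (-δ)`: at least `c H ρ_1 ⋯ ρ_s / (log H) ^ 3`.

The numbers are the areas `n` of the triangles with the legs `(S ^ 2 - 1) / w`, `2 S / w`, where `(w, S) = (6, 36 t)` or
`(3, 18 t)`, so that `n = t (36 t - 1) (36 t + 1)` or `2 t (18 t - 1) (18 t + 1)`, for `t` in a class modulo `8`. The sieve
for three linear forms (starting files) is combined with Weyl's inequality for the polynomials `Q_i(n(t))` of `t`; the `t` for
which a form has a large square divisor are counted separately.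
-/

set_option autoImplicit false

namespace Pool.Agent.Results.MP_8efaaa_nt.FractionalParts

open Finset Polynomial

/-- the vector `α` is of finite type, with the constants `c₀` and `τ` -/
def FiniteType {s : ℕ} (c₀ : ℝ) (τ : ℕ) (α : Fin s → ℝ) : Prop :=
  ∀ h : Fin s → ℤ, h ≠ 0 → ∀ a : ℤ, c₀ ≤ (∑ i, |(h i : ℝ)|) ^ τ * |(∑ i, h i * α i) - a|

/-- all the fractional parts of `Q_i(n) - u_i` are less than `ρ_i` -/
def InBox {s : ℕ} (Q : Fin s → ℝ[X]) (u ρ : Fin s → ℝ) (n : ℕ) : Prop :=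
  ∀ i, Int.fract ((Q i).eval (n : ℝ) - u i) < ρ i

/-- `x² + a y² = z²`, `x² - a y² = t²` is solvable in positive integers -/
def Congruent (a : ℕ) : Prop :=
  ∃ x y z t : ℕ, 0 < x ∧ 0 < y ∧ 0 < z ∧ 0 < t ∧ x ^ 2 + a * y ^ 2 = z ^ 2 ∧
    x ^ 2 = a * y ^ 2 + t ^ 2

/-- `n` has at most `r` prime factors (with multiplicity), the odd ones larger than `w` -/
def AlmostPrime (r : ℕ) (w : ℝ) (n : ℕ) : Prop :=
  n.primeFactorsList.length ≤ r ∧ ∀ q : ℕ, q.Prime → q ≠ 2 → q ∣ n → w < q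

/-- the number of the squarefree congruent numbers `n ≡ j` modulo `8` in `(X, Y]` which are almost primes and have the
property `R` -/
noncomputable def count (j r : ℕ) (w : ℝ) (X Y : ℕ) (R : ℕ → Prop) : ℕ :=
  Set.ncard {n : ℕ | X < n ∧ n ≤ Y ∧ n % 8 = j ∧ Squarefree n ∧ Congruent n ∧ AlmostPrime r w n ∧ R n}

/-- the scale: `331776` for the class `6`, and `663552` for the classes `5` and `7` -/
def K (j : ℕ) : ℕ := if j = 6 then 331776 else 663552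

lemma congruent_NN {B e t₀ : ℕ} (hp : Pool.Agent.X220.CN.Par B e t₀) (m : ℕ) :
    Congruent (Pool.Agent.X220.CN.NN B e t₀ m) := by
  obtain ⟨S, w, hS, hw, h, -⟩ := Pool.Agent.X220.CN.triangle hp m
  set n := Pool.Agent.X220.CN.NN B e t₀ m
  obtain ⟨k, hk⟩ : ∃ k, S ^ 2 = 2 * S + 1 + k := ⟨S ^ 2 - (2 * S + 1), by
    have : 2 * S + 1 ≤ S ^ 2 := by nlinarith
    omega⟩
  have hk0 : 0 < k := by nlinarith
  have hz : (w : ℤ) ^ 2 * n + S = S ^ 3 := by exact_mod_cast h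
  have hkz : (S : ℤ) ^ 2 = 2 * S + 1 + k := by exact_mod_cast hk
  refine ⟨S ^ 2 + 1, 2 * w, S ^ 2 + 2 * S - 1, k, by positivity, by omega, by omega, hk0, ?_, ?_⟩
  · have h1 : 1 ≤ S ^ 2 + 2 * S := by omega
    have h2 : (((S ^ 2 + 1) ^ 2 + n * (2 * w) ^ 2 : ℕ) : ℤ) = (((S ^ 2 + 2 * S - 1) ^ 2 : ℕ) : ℤ) := by
      push_cast [Nat.cast_sub h1]
      linear_combination 4 * hz
    exact_mod_cast h2
  · have h2 : (((S ^ 2 + 1) ^ 2 : ℕ) : ℤ) = ((n * (2 * w) ^ 2 + k ^ 2 : ℕ) : ℤ) := by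
      have hk2 : (k : ℤ) = S ^ 2 - 2 * S - 1 := by linarith
      push_cast
      rw [hk2]
      linear_combination 4 * hz - 4 * hz - 4 * hz
    exact_mod_cast h2

theorem result :
    (∀ (s d τ : ℕ) (c₀ η : ℝ), 1 ≤ d → 0 < c₀ → 0 < η → ∀ j : ℕ, j = 5 ∨ j = 6 ∨ j = 7 →
      ∃ (r : ℕ) (δ c : ℝ) (H₀ : ℕ), 0 < δ ∧ 0 < c ∧ ∀ H : ℕ, H₀ ≤ H → ∀ Q : Fin s → ℝ[X],
        (∀ i, (Q i).natDegree ≤ d) → FiniteType c₀ τ (fun i => (Q i).coeff d) →
        ∀ u ρ : Fin s → ℝ, (∀ i, (H : ℝ) ^ (-δ) ≤ ρ i ∧ ρ i ≤ 1) → ∀ M : ℕ, (M : ℝ) + H ≤ (H : ℝ) ^ (2 - η) →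
        c * (H * ∏ i, ρ i) / Real.log H ^ 3 ≤
          count j r ((H : ℝ) ^ δ) (K j * M ^ 3) (K j * (M + H + 1) ^ 3) (InBox Q u ρ)) ∧
    -- algebraic numbers
    (∀ (s : ℕ) (α : Fin s → ℝ), (∀ i, IsAlgebraic ℚ (α i)) →
      (∀ (h : Fin s → ℤ) (a : ℤ), ∑ i, (h i : ℝ) * α i = a → h = 0) →
      ∃ (c₀ : ℝ) (τ : ℕ), 0 < c₀ ∧ FiniteType c₀ τ α) := by
  refine ⟨?_, fun s α hα hind => Pool.Agent.X220.FP.liouville_vec s α hα hind⟩
  intro s d τ c₀ η hd hc₀ hη j hj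
  obtain ⟨B, e, t₀, hp, hK, hmod⟩ : ∃ B e t₀ : ℕ, Pool.Agent.X220.CN.Par B e t₀ ∧ K j = 512 * e * B ^ 2 ∧
      ∀ n, (n + e * t₀) % 8 = 0 → n % 8 = j := by
    rcases hj with rfl | rfl | rfl
    · exact ⟨36, 1, 3, ⟨Or.inl ⟨rfl, rfl⟩, by norm_num⟩, rfl, fun n h => by omega⟩
    · exact ⟨18, 2, 1, ⟨Or.inr ⟨rfl, rfl⟩, by norm_num⟩, rfl, fun n h => by omega⟩
    · exact ⟨36, 1, 1, ⟨Or.inl ⟨rfl, rfl⟩, by norm_num⟩, rfl, fun n h => by omega⟩
  obtain ⟨r, δ, c, H₀, hδ, hc, h⟩ := Pool.Agent.X220.CN.count hp s d τ hd c₀ hc₀ η hη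
  refine ⟨r, δ, c, H₀, hδ, hc, ?_⟩
  intro H hH Q hQ hFT u ρ hρ M hM
  refine (h H hH Q hQ hFT u ρ hρ M hM).trans ?_
  have h1 : Set.ncard {n : ℕ | 512 * e * B ^ 2 * M ^ 3 < n ∧
        n ≤ 512 * e * B ^ 2 * (M + H + 1) ^ 3 ∧ (∃ m, n = Pool.Agent.X220.CN.NN B e t₀ m) ∧ Squarefree n ∧
        n.primeFactorsList.length ≤ r ∧ (∀ q : ℕ, q.Prime → q ≠ 2 → q ∣ n → (H : ℝ) ^ δ < q) ∧
        Pool.Agent.X220.FP.InBox Q u ρ n} ≤
      count j r ((H : ℝ) ^ δ) (K j * M ^ 3) (K j * (M + H + 1) ^ 3) (InBox Q u ρ) := by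
    unfold count
    rw [hK]
    refine Set.ncard_le_ncard ?_ ((Set.finite_Iic (512 * e * B ^ 2 * (M + H + 1) ^ 3)).subset fun n hn => hn.2.1)
    rintro n ⟨m1, m2, ⟨m, rfl⟩, m4, m5, m6, m7⟩
    exact ⟨m1, m2, hmod _ (Pool.Agent.X220.CN.NN_mod hp m), m4, congruent_NN hp m, ⟨m5, m6⟩, m7⟩
  exact_mod_cast h1

end Pool.Agent.Results.MP_8efaaa_nt.FractionalParts
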