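import Pool.Agent.X119.MilCong

set_option autoImplicit false

/-!
# Almost prime congruent numbers of the classes `5, 6, 7` modulo `8` of the form `⌊θ ^ (c ^ n)⌋`

Let `c > 3` and `D(c) = (5 c - 12) / ((7 c + 12) (c - 1)) > 0`. Prescribe for every `n` a modulus `M_n` with
`log M_n = o(c ^ n)`, a class `a_n` modulo `M_n` and `r_n ∈ {5, 6, 7}` such that the class contains a squarefree number
`≡ r_n` modulo `8`. The real numbers `θ > 1` such that for all large `n` the number `⌊θ ^ (c ^ n)⌋` is a squarefree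
congruent number `≡ r_n` modulo `8` in the class `a_n` modulo `M_n`, and an almost prime times `(a_n, M_n)`, form a set of
Hausdorff dimension at least `D(c)` in each open set that meets `(1, ∞)`.

The input is the theorem `Pool.Agent.Y859.SI.main` of the starting result `AlmostPrimeIntervals` (`X ^ (1/12)` such
numbers in `[X, X + X ^ θ]`, `θ > 2/3`); the Cantor set argument is that of `Pool.Agent.X10.ML` (helper10) for sparse sets.
-/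

open Filter

namespace Pool.Agent.Results.MP_8efaaa_nt.MillsSequences

/-- `x² + a y² = z²`, `x² - a y² = t²` is solvable in positive integers -/
def Congruent (a : ℕ) : Prop :=
  ∃ x y z t : ℕ, 0 < x ∧ 0 < y ∧ 0 < z ∧ 0 < t ∧ x ^ 2 + a * y ^ 2 = z ^ 2 ∧
    x ^ 2 = a * y ^ 2 + t ^ 2

/-- `m` has at most `R` prime factors (with multiplicity), the odd ones larger than `y ^ (1 / R)` -/
def AlmostPrime (R y m : ℕ) : Prop :=
  m.primeFactorsList.length ≤ R ∧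
    ∀ p : ℕ, p.Prime → p ≠ 2 → p ∣ m → (y : ℝ) ^ (1 / (R : ℝ)) < (p : ℝ)

/-- `y` is a squarefree congruent number, `≡ r` modulo `8` and `≡ a` modulo `M`, and `y / (a, M)` is an almost prime -/
def Good (R M a r y : ℕ) : Prop :=
  Squarefree y ∧ y % 8 = r ∧ y ≡ a [MOD M] ∧ Congruent y ∧ ∃ m, y = Nat.gcd a M * m ∧ AlmostPrime R y m

/-- the class of `a` modulo `M` contains a squarefree number `≡ r` modulo `8`, and `r` is `5`, `6` or `7` -/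
def Allowed (M a r : ℕ) : Prop :=
  0 < M ∧ (r = 5 ∨ r = 6 ∨ r = 7) ∧ ∃ k : ℕ, Squarefree k ∧ k % 8 = r ∧ k ≡ a [MOD M]

/-- the bound for the dimension -/
noncomputable def D (c : ℝ) : ℝ := (5 * c - 12) / ((7 * c + 12) * (c - 1))

lemma main (c s : ℝ) (hc : 3 < c) (hs0 : 0 < s) (hs : s < D c) :
    ∃ R : ℕ, 1 ≤ R ∧ ∀ M a r : ℕ → ℕ, (∀ n, Allowed (M n) (a n) (r n)) →
      (∀ ε : ℝ, 0 < ε → ∀ᶠ n : ℕ in atTop, (M n : ℝ) ≤ Real.exp (ε * c ^ n)) →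
      ∀ U : Set ℝ, IsOpen U → (U ∩ Set.Ioi 1).Nonempty →
      ENNReal.ofReal s ≤ dimH {θ : ℝ | θ ∈ U ∧ 1 < θ ∧ ∃ N : ℕ, ∀ n : ℕ, N ≤ n →
        Good R (M n) (a n) (r n) ⌊θ ^ (c ^ n)⌋₊} := by
  have hc1 : 0 < c - 1 := by linarith
  have hs' : s * (7 * c + 12) * (c - 1) < 5 * c - 12 := by
    unfold D at hs
    rw [lt_div_iff₀ (by positivity)] at hs
    linarith
  obtain ⟨R, hR, h⟩ := Pool.Agent.X119.Mil.cong c s hc hs0 hs'
  refine ⟨R, hR, fun M a r hall hM U hU hne => ?_⟩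
  choose hM0 hr k hk using hall
  refine (h M k hM0 hM (fun n => (hk n).1) U hU hne).trans (dimH_mono ?_)
  rintro θ ⟨t1, t2, N, t3⟩
  refine ⟨t1, t2, N, fun n hn => ?_⟩
  obtain ⟨h1, h2, h3, m, h6, h7, h8⟩ := t3 n hn
  obtain ⟨k1, k2, k3⟩ := hk n
  have hr8 : ⌊θ ^ (c ^ n)⌋₊ % 8 = r n := by
    have h9 : ⌊θ ^ (c ^ n)⌋₊ ≡ k n [MOD 8] := h2.of_dvd (Dvd.intro _ rfl)
    have h10 : ⌊θ ^ (c ^ n)⌋₊ % 8 = k n % 8 := h9
    omega
  have hg : Nat.gcd (k n) (M n) = Nat.gcd (a n) (M n) := k3.gcd_eq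
  rw [hg] at h6
  exact ⟨h1, hr8, (h2.of_dvd (Dvd.intro_left 8 rfl)).trans k3,
    Pool.Agent.X119.Mil.congruent_of _ h3, m, h6, h7, h8⟩

/-- **Almost prime congruent numbers along doubly exponential sequences, in prescribed classes.** -/
theorem result (c : ℝ) (hc : 3 < c) :
    0 < D c ∧
    (∀ s : ℝ, 0 < s → s < D c → ∃ R : ℕ, 1 ≤ R ∧ ∀ M a r : ℕ → ℕ, (∀ n, Allowed (M n) (a n) (r n)) →
      (∀ ε : ℝ, 0 < ε → ∀ᶠ n : ℕ in atTop, (M n : ℝ) ≤ Real.exp (ε * c ^ n)) →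
      ∀ U : Set ℝ, IsOpen U → (U ∩ Set.Ioi 1).Nonempty →
      ENNReal.ofReal s ≤ dimH {θ : ℝ | θ ∈ U ∧ 1 < θ ∧ ∃ N : ℕ, ∀ n : ℕ, N ≤ n →
        Good R (M n) (a n) (r n) ⌊θ ^ (c ^ n)⌋₊}) ∧
    ∀ M a r : ℕ → ℕ, (∀ n, Allowed (M n) (a n) (r n)) →
      (∀ ε : ℝ, 0 < ε → ∀ᶠ n : ℕ in atTop, (M n : ℝ) ≤ Real.exp (ε * c ^ n)) →
      ∀ U : Set ℝ, IsOpen U → (U ∩ Set.Ioi 1).Nonempty →
      ENNReal.ofReal (D c) ≤ dimH {θ : ℝ | θ ∈ U ∧ 1 < θ ∧ ∃ R N : ℕ, ∀ n : ℕ, N ≤ n →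
        Good R (M n) (a n) (r n) ⌊θ ^ (c ^ n)⌋₊} := by
  have hc1 : 0 < c - 1 := by linarith
  have hD : 0 < D c := by
    unfold D
    have : 0 < 5 * c - 12 := by linarith
    positivity
  refine ⟨hD, fun s hs0 hs => main c s hc hs0 hs, fun M a r hall hM U hU hne => ?_⟩
  apply Pool.Agent.X119.Mil.dim_ge hD
  intro s hs0 hs
  obtain ⟨R, -, h⟩ := main c s hc hs0 hs
  refine (h M a r hall hM U hU hne).trans (dimH_mono ?_)
  rintro θ ⟨t1, t2, N, t3⟩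
  exact ⟨t1, t2, R, N, t3⟩

end Pool.Agent.Results.MP_8efaaa_nt.MillsSequences
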