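import Pool.Agent.X58.CN.Reg

/-!
# Regular neighbourhoods in arbitrary sets of parameters of squarefree congruent numbers

The numbers `num b v = 3 b v (12 b v - 1) (12 b v + 1)` are congruent numbers (the legs `12 b v` and
`((12 b v) ^ 2 - 1) / 2`). Let `b` be squarefree, prime to `3`, `t` a class modulo `8` (see `Admissible`), and
`Good b t r` the set of the `v` such that `num b v` is squarefree, `≡ t` modulo `8`, with at most `r` prime factors,
those not dividing `3 b` larger than `v ^ (1 / r)`; these numbers are congruent.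
For `1/2 < θ ≤ 1` and large `r` there are at least `κ Y / (log X) ^ 3` such `v` in `(X, X + Y]`, `X ^ θ ≤ Y ≤ X`, and for
an ARBITRARY subset `S` of `Good b t r` all but `ε Y / (log X) ^ 3` of the elements of `S` in `(X, X + Y]`, `2 Y ≤ X`,
are regular points of `S`: the numbers of the elements of `S` in ALL intervals of length between `(log X) ^ 3 / c` and
`Y` around them have the right order of magnitude, and up to `δ` the set `S` has constant density around them at all but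
`B (ε, δ)` dyadic scales.
-/

set_option autoImplicit false

namespace Pool.Agent.Results.MP_8efaaa_nt.RegularParameters

open Filter

/-- The system `x² + a y² = z²`, `x² - a y² = t²` is solvable in positive integers. -/
def Congruent (a : ℕ) : Prop :=
  ∃ x y z t : ℕ, 0 < x ∧ 0 < y ∧ 0 < z ∧ 0 < t ∧ x ^ 2 + a * y ^ 2 = z ^ 2 ∧ x ^ 2 = a * y ^ 2 + t ^ 2

/-- `b` is squarefree and prime to `3`, and `t` is `5` or `7` and `b` odd, or `t` is `6` and `b` even. -/
def Admissible (b t : ℕ) : Prop :=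
  Squarefree b ∧ ¬ 3 ∣ b ∧ ((t = 5 ∨ t = 7) ∧ Odd b ∨ t = 6 ∧ Even b)

/-- The number `3 b v (12 b v - 1) (12 b v + 1)`. -/
def num (b v : ℕ) : ℕ := 3 * b * v * (12 * b * v - 1) * (12 * b * v + 1)

/-- `q` divides `v`, `12 b v - 1` or `12 b v + 1`. -/
def Divides (b q v : ℕ) : Prop := q ∣ v ∨ q ∣ 12 * b * v - 1 ∨ q ∣ 12 * b * v + 1

/-- The parameters `v` such that `num b v` is squarefree, is `t` modulo `8`, has at most `r` prime factors, and has no
prime factors up to `v ^ (1 / r)` except for those of `3 b`. -/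
def Good (b t r : ℕ) : Set ℕ :=
  {v | num b v % 8 = t ∧ Squarefree (num b v) ∧ ArithmeticFunction.cardFactors (num b v) ≤ r ∧
    ∀ q : ℕ, q.Prime → Divides b q v → (v : ℝ) ^ (1 / (r : ℝ)) < q}

open Classical in
/-- The number of elements of `T` in `(a, b]`. -/
noncomputable def count (T : Set ℕ) (a b : ℕ) : ℕ := ((Finset.Ioc a b).filter (fun n => n ∈ T)).card

/-- All intervals `(n - s, n + t]` with `s, t ≤ Y` of length at least `(log X) ^ 3 / c` contain the right order of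
elements of `S`: between `c (s + t) / (log X) ^ 3` and `(s + t) / (c (log X) ^ 3)`. -/
def RightOrder (S : Set ℕ) (c : ℝ) (X Y n : ℕ) : Prop :=
  ∀ s t : ℕ, s ≤ Y → t ≤ Y → Real.log X ^ 3 ≤ c * (s + t) →
    c * (s + t) / Real.log X ^ 3 ≤ count S (n - s) (n + t) ∧
      (count S (n - s) (n + t) : ℝ) ≤ (s + t) / (c * Real.log X ^ 3)

/-- Up to `δ`, `S` has a constant density `lam / (log X) ^ 3` (`c ≤ lam ≤ 1 / c`) on both sides of `n`
up to the distance `2 ^ j`. -/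
def ConstantDensity (S : Set ℕ) (c δ : ℝ) (X n j : ℕ) : Prop :=
  ∃ lam : ℝ, c ≤ lam ∧ lam ≤ 1 / c ∧ ∀ s t : ℕ, s ≤ 2 ^ j → t ≤ 2 ^ j →
    |(count S (n - s) (n + t) : ℝ) - lam * (s + t) / Real.log X ^ 3| ≤ δ * 2 ^ j / Real.log X ^ 3

open Classical in
/-- The number of the scales `(log X) ^ 3 ≤ 2 ^ j ≤ Y` without this property. -/
noncomputable def badScales (S : Set ℕ) (c δ : ℝ) (X Y n : ℕ) : ℕ :=
  ((Finset.range (Nat.log 2 Y + 1)).filter (fun j => Real.log X ^ 3 ≤ (2 : ℝ) ^ j ∧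
    ¬ ConstantDensity S c δ X n j)).card

/-- The elements of `S` that are not regular points of `S`. -/
def Irregular (S : Set ℕ) (c δ : ℝ) (B X Y : ℕ) : Set ℕ :=
  {n | n ∈ S ∧ ¬ (RightOrder S c X Y n ∧ badScales S c δ X Y n ≤ B)}

lemma congruent (b v : ℕ) (hb : 1 ≤ b) (hv : 1 ≤ v) : Congruent (num b v) := by
  have h0 : 12 ≤ 12 * b * v := by
    calc 12 = 12 * 1 * 1 := by norm_num
      _ ≤ 12 * b * v := Nat.mul_le_mul (Nat.mul_le_mul_left _ hb) hv
  have h4 : 4 * num b v = 12 * b * v * (12 * b * v - 1) * (12 * b * v + 1) := by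
    unfold num
    ring
  obtain ⟨w, hw⟩ : ∃ w, 12 * b * v = w + 12 := ⟨12 * b * v - 12, by omega⟩
  rw [hw, show w + 12 - 1 = w + 11 by omega] at h4
  refine ⟨(w + 12) ^ 2 + 1, 4, (w + 12) ^ 2 + 2 * w + 23, (w + 11) ^ 2 - 2, by positivity, by norm_num, by positivity,
    ?_, ?_, ?_⟩
  · have : 11 ^ 2 ≤ (w + 11) ^ 2 := Nat.pow_le_pow_left (by omega) 2
    omega
  · calc ((w + 12) ^ 2 + 1) ^ 2 + num b v * 4 ^ 2 = ((w + 12) ^ 2 + 1) ^ 2 + 4 * (4 * num b v) := by ring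
      _ = ((w + 12) ^ 2 + 2 * w + 23) ^ 2 := by rw [h4]; ring
  · obtain ⟨s, hs⟩ : ∃ s, (w + 11) ^ 2 = s + 2 := ⟨(w + 11) ^ 2 - 2, by
      have : 11 ^ 2 ≤ (w + 11) ^ 2 := Nat.pow_le_pow_left (by omega) 2
      omega⟩
    rw [hs, Nat.add_sub_cancel]
    have hs' : (s : ℤ) = (w + 11) ^ 2 - 2 := by
      have : (((w + 11) ^ 2 : ℕ) : ℤ) = ((s + 2 : ℕ) : ℤ) := by rw [hs]
      push_cast at this
      linarith
    have h4' : 4 * ((num b v : ℕ) : ℤ) = (w + 12) * (w + 11) * (w + 12 + 1) := by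
      have : ((4 * num b v : ℕ) : ℤ) = (((w + 12) * (w + 11) * (w + 12 + 1) : ℕ) : ℤ) := by rw [h4]
      push_cast at this
      exact this
    have : (((((w + 12) ^ 2 + 1) ^ 2 : ℕ)) : ℤ) = ((num b v * 4 ^ 2 + s ^ 2 : ℕ) : ℤ) := by
      push_cast
      rw [hs']
      linear_combination (-4 : ℤ) * h4'
    exact_mod_cast this


/-- **Regular neighbourhoods for the parameters of squarefree congruent numbers.** -/
theorem result (b t : ℕ) (h : Admissible b t) (θ : ℝ) (hθ : 1 / 2 < θ) (hθ1 : θ ≤ 1) :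
    (∀ r v : ℕ, v ∈ Good b t r → 1 ≤ v ∧ Congruent (num b v) ∧
      (num b v % 8 = 5 ∨ num b v % 8 = 6 ∨ num b v % 8 = 7)) ∧
    ∃ r₀ : ℕ, 2 ≤ r₀ ∧ ∀ r : ℕ, r₀ ≤ r →
      (∃ κ : ℝ, 0 < κ ∧ ∀ᶠ X : ℕ in atTop, ∀ Y : ℕ, (X : ℝ) ^ θ ≤ Y → Y ≤ X →
        κ * Y / Real.log X ^ 3 ≤ count (Good b t r) X (X + Y)) ∧
      ∀ ε : ℝ, 0 < ε → ∃ c : ℝ, 0 < c ∧ ∀ δ : ℝ, 0 < δ → ∃ B : ℕ,
        ∀ᶠ X : ℕ in atTop, ∀ Y : ℕ, (X : ℝ) ^ θ ≤ Y → 2 * Y ≤ X → ∀ S : Set ℕ, S ⊆ Good b t r →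
          (count (Irregular S c δ B X Y) X (X + Y) : ℝ) ≤ ε * Y / Real.log X ^ 3 := by
  have hb : 1 ≤ b := Nat.one_le_iff_ne_zero.2 h.1.ne_zero
  refine ⟨fun r v hv => ?_, ?_⟩
  · have hv1 : 1 ≤ v := by
      rcases Nat.eq_zero_or_pos v with h0 | h0
      · exfalso
        have h1 := hv.2.1.ne_zero
        apply h1
        rw [h0]
        unfold num
        simp
      · exact h0
    have ht : num b v % 8 = t := hv.1
    refine ⟨hv1, congruent b v hb hv1, ?_⟩
    rcases h.2.2 with h | h <;> omega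
  · refine Pool.Agent.X58.CN.reg b t ?_ θ hθ hθ1
    refine ⟨h.1, h.2.1, ?_, ?_, ?_⟩
    · rcases h.2.2 with h | h <;> omega
    · rcases h.2.2 with h | h <;> omega
    · rcases h.2.2 with ⟨h, h2⟩ | ⟨h, h2⟩
      · rw [Nat.odd_iff] at h2
        omega
      · rw [Nat.even_iff] at h2
        omega

end Pool.Agent.Results.MP_8efaaa_nt.RegularParameters
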